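import Pool.Agent.TH609.E3.Rows

/-!
# R3: size of the double residues

(Adapted from the starting file `W638/Z3/R3`; cells `p/480 < k/n ≤ q/480`, eighth powers.)
-/

set_option autoImplicit false

open Polynomial Pool.Agent.H337R2 Filter Topology

namespace Pool.Agent.TH609.E3.W638

open Pool.Agent.TH609.E3

/-! ### The certificate -/

/-- exponent of `x₁` -/
def X1 : ℕ := 1440

/-- exponent of `x₂` -/
def X2 : ℕ := 2400

/-- exponent of `1 + x₃` -/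
def X3 : ℕ := 7680

/-- exponent of the errors -/
def RR : ℕ := 12000

/-- `200 x₁` (`j = p + q`) -/
@[irreducible] def q1 (j : ℕ) : ℕ := (200 * 2880 + (j - 2880) / 2) / (j - 2880)

/-- `200 x₂` -/
@[irreducible] def q2 (j : ℕ) : ℕ := min ((200 * 4800 + (j - 4800) / 2) / (j - 4800)) 20000

/-- `200 x₃` -/
@[irreducible] def q3 (j : ℕ) : ℕ := min ((200 * (j - 3840) + (11520 - j) / 2) / (11520 - j)) 20000

def Ks (p q : ℕ) : ℕ := if q3 (p + q) < 200 then q - 1920 else p - 1920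

/-- numerator of `|κ - c|` at `κ = j/480` -/
def En (c j : ℕ) : ℕ := (j * 10000 - c * 480) + (c * 480 - j * 10000)

/-- numerator of the node factor -/
def nn (p q : ℕ) (x : Bool × ℕ × ℕ) : ℕ :=
  if x.1 then (q - 480) ^ 2 * 10000 + x.2.1 * 480 ^ 2 else (max (En x.2.1 p) (En x.2.1 q)) ^ 2

/-- denominator of the node factor -/
def dn (x : Bool × ℕ × ℕ) : ℕ := if x.1 then 480 ^ 2 * 10000 else (480 * 10000) ^ 2

def pn (p q : ℕ) (r : List (Bool × ℕ × ℕ)) : ℕ := (r.map fun x => nn p q x ^ (2 * x.2.2)).prod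

def pd (r : List (Bool × ℕ × ℕ)) : ℕ := (r.map fun x => dn x ^ (2 * x.2.2)).prod

def AN (t : ℕ) (r : List (Bool × ℕ × ℕ)) (p q : ℕ) : ℕ :=
  2 ^ (8 * t) * ((200 + q1 (p + q)) ^ q * 200 ^ X1) *
  ((200 + q2 (p + q)) ^ q * 200 ^ X2) * ((200 + q3 (p + q)) ^ X3 * 200 ^ (2 * Ks p q)) * pn p q r ^ 8

def BN (r : List (Bool × ℕ × ℕ)) (p q : ℕ) : ℕ :=
  (200 ^ q * q1 (p + q) ^ X1) * (200 ^ q * q2 (p + q) ^ X2) *
  (200 ^ X3 * q3 (p + q) ^ (2 * Ks p q)) * pd r ^ 8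

def chk (t : ℕ) (r : List (Bool × ℕ × ℕ)) (p q : ℕ) : Bool :=
  Nat.ble 2400 p && (Nat.ble q 5760 && (Nat.ble (p + 1) q &&
  (Nat.ble 1 (q1 (p + q)) && (Nat.ble 1 (q2 (p + q)) && (Nat.ble 1 (q3 (p + q)) &&
  Nat.ble (AN t r p q) (BN r p q * 2 ^ (8 * (UU + TO))))))))

def chkL (t : ℕ) (r : List (Bool × ℕ × ℕ)) : List ℕ → Bool
  | [] => true
  | p :: l => (match l with
    | [] => true
    | q :: _ => chk t r p q) && chkL t r l

theorem chk_true {t : ℕ} {r : List (Bool × ℕ × ℕ)} {p q : ℕ} (h : chk t r p q = true) :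
    2400 ≤ p ∧ q ≤ 5760 ∧ p + 1 ≤ q ∧ 1 ≤ q1 (p + q) ∧ 1 ≤ q2 (p + q) ∧ 1 ≤ q3 (p + q) ∧
    AN t r p q ≤ BN r p q * 2 ^ (8 * (UU + TO)) := by
  unfold chk at h
  simp only [Bool.and_eq_true, Nat.ble_eq] at h
  exact h

/-- the chain gives the cell of `k` -/
theorem chain_cell {t : ℕ} {r : List (Bool × ℕ × ℕ)} {n k : ℕ} : ∀ (l : List ℕ) (p : ℕ),
    chkL t r (p :: l) = true → p * n < 480 * k → 480 * k ≤ ((p :: l).getLast (by simp)) * n →
    ∃ p' q' : ℕ, chk t r p' q' = true ∧ p' * n < 480 * k ∧ 480 * k ≤ q' * n := by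
  intro l
  induction l with
  | nil =>
    intro p _ h0 h1
    simp at h1
    omega
  | cons q l ih =>
    intro p h h0 h1
    have h' : chk t r p q = true ∧ chkL t r (q :: l) = true := by
      have : chkL t r (p :: q :: l) = (chk t r p q && chkL t r (q :: l)) := rfl
      rw [this, Bool.and_eq_true] at h
      exact h
    rcases Nat.lt_or_ge (q * n) (480 * k) with h2 | h2
    · apply ih q h'.2 h2
      rw [List.getLast_cons (by simp)] at h1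
      exact h1
    · exact ⟨p, q, h'.1, h0, h2⟩

/-! ### The real form of the certificate -/

noncomputable def xx (q : ℕ) : ℝ := (q : ℝ) / 200

theorem fr (q a c : ℕ) : (1 + xx q) ^ a * (xx q)⁻¹ ^ c =
    (((200 + q) ^ a * 200 ^ c : ℕ) : ℝ) / ((200 ^ a * q ^ c : ℕ) : ℝ) := by
  unfold xx
  have h1 : 1 + (q : ℝ) / 200 = ((200 + q : ℕ) : ℝ) / 200 := by push_cast; ring
  rw [h1, inv_div, div_pow, div_pow, div_mul_div_comm]
  push_cast
  rfl

theorem dn_pos (x : Bool × ℕ × ℕ) : 0 < dn x := by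
  unfold dn
  split <;> norm_num

theorem pd_pos (r : List (Bool × ℕ × ℕ)) : 0 < pd r := by
  unfold pd
  apply List.prod_pos
  intro a ha
  obtain ⟨x, _, rfl⟩ := List.mem_map.1 ha
  exact Nat.pow_pos (dn_pos x)

noncomputable def UR (t : ℕ) (r : List (Bool × ℕ × ℕ)) (p q : ℕ) : ℝ :=
  2 ^ (8 * t) * ((1 + xx (q1 (p + q))) ^ q * (xx (q1 (p + q)))⁻¹ ^ X1) *
  ((1 + xx (q2 (p + q))) ^ q * (xx (q2 (p + q)))⁻¹ ^ X2) *
  ((1 + xx (q3 (p + q))) ^ X3 * (xx (q3 (p + q)))⁻¹ ^ (2 * Ks p q)) *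
  ((pn p q r : ℝ) / (pd r : ℝ)) ^ 8

theorem UR_le {t : ℕ} {r : List (Bool × ℕ × ℕ)} {p q : ℕ} (h : chk t r p q = true) :
    UR t r p q ≤ 2 ^ (8 * (UU + TO)) := by
  obtain ⟨-, -, -, h1, h2, h3, h4⟩ := chk_true h
  have hB : 0 < BN r p q := by
    unfold BN
    exact Nat.mul_pos (Nat.mul_pos (Nat.mul_pos (Nat.mul_pos (Nat.pow_pos (by norm_num))
      (Nat.pow_pos h1)) (Nat.mul_pos (Nat.pow_pos (by norm_num)) (Nat.pow_pos h2)))
      (Nat.mul_pos (Nat.pow_pos (by norm_num)) (Nat.pow_pos h3))) (Nat.pow_pos (pd_pos r))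
  have e : UR t r p q = (AN t r p q : ℝ) / (BN r p q : ℝ) := by
    unfold UR AN BN
    rw [fr, fr, fr, div_pow]
    generalize (200 + q1 (p + q)) ^ q * 200 ^ X1 = a1
    generalize 200 ^ q * q1 (p + q) ^ X1 = b1
    generalize (200 + q2 (p + q)) ^ q * 200 ^ X2 = a2
    generalize 200 ^ q * q2 (p + q) ^ X2 = b2
    generalize (200 + q3 (p + q)) ^ X3 * 200 ^ (2 * Ks p q) = a3
    generalize 200 ^ X3 * q3 (p + q) ^ (2 * Ks p q) = b3
    push_cast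
    rw [← mul_div_assoc (2 ^ (8 * t) : ℝ), div_mul_div_comm, div_mul_div_comm, div_mul_div_comm]
  rw [e, div_le_iff₀ (by exact_mod_cast hB)]
  have h5 : ((AN t r p q : ℕ) : ℝ) ≤ ((BN r p q * 2 ^ (8 * (UU + TO)) : ℕ) : ℝ) := by exact_mod_cast h4
  rw [Nat.cast_mul, Nat.cast_pow] at h5
  rw [mul_comm]
  exact h5

/-! ### The node factors -/

/-- the node factor in terms of the row -/
noncomputable def nr (κ : ℝ) (x : Bool × ℕ × ℕ) : ℝ :=
  if x.1 then (κ - 1) ^ 2 + (x.2.1 : ℝ) / 10000 else (κ - (x.2.1 : ℝ) / 10000) ^ 2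

theorem nr_nonneg (κ : ℝ) (x : Bool × ℕ × ℕ) : 0 ≤ nr κ x := by
  unfold nr
  split <;> positivity

theorem nk_eq (i b : ℕ) (κ : ℝ) : nk i κ = nr κ (decide (i < nL), cN i, sG b i) := by
  unfold nk nr cG
  by_cases h : i < nL
  · simp [h]
  · simp [h]

theorem prod_nk (b : ℕ) (κ : ℝ) : ∏ i ∈ Finset.range nN, nk i κ ^ (2 * sG b i) =
    ((row b).map fun x => nr κ x ^ (2 * x.2.2)).prod := by
  rw [← prod_row b (fun x => nr κ x ^ (2 * x.2.2))]
  exact Finset.prod_congr rfl fun i _ => by rw [nk_eq i b]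

theorem En_cast (c j : ℕ) : ((En c j : ℕ) : ℝ) = |(j : ℝ) * 10000 - c * 480| := by
  unfold En
  rcases le_total (j * 10000) (c * 480) with h | h
  · rw [Nat.sub_eq_zero_of_le h, zero_add, Nat.cast_sub h]
    have h' : (j : ℝ) * 10000 ≤ c * 480 := by exact_mod_cast h
    rw [abs_of_nonpos (by linarith)]
    push_cast
    ring
  · rw [Nat.sub_eq_zero_of_le h, add_zero, Nat.cast_sub h]
    have h' : (c : ℝ) * 480 ≤ j * 10000 := by exact_mod_cast h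
    rw [abs_of_nonneg (by linarith)]
    push_cast
    ring

theorem nr_le {p q : ℕ} (hp : 480 ≤ p) (hpq : p ≤ q) {κ : ℝ} (h0 : (p : ℝ) / 480 ≤ κ)
    (h1 : κ ≤ (q : ℝ) / 480) (x : Bool × ℕ × ℕ) : nr κ x * (dn x : ℝ) ≤ (nn p q x : ℝ) := by
  have hp' : (480 : ℝ) ≤ p := by exact_mod_cast hp
  have h0' : (p : ℝ) ≤ κ * 480 := by rwa [div_le_iff₀ (by norm_num)] at h0
  have h1' : κ * 480 ≤ q := by rwa [le_div_iff₀ (by norm_num)] at h1
  unfold nr dn nn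
  split
  · have e : ((q - 480 : ℕ) : ℝ) = (q : ℝ) - 480 := by
      rw [Nat.cast_sub (by omega)]; norm_num
    push_cast
    rw [e]
    have h2 : (κ * 480 - 480) ^ 2 ≤ ((q : ℝ) - 480) ^ 2 := by
      apply pow_le_pow_left₀ <;> linarith
    nlinarith
  · rw [Nat.cast_pow, Nat.cast_pow, Nat.cast_max]
    have h2 : |κ * 480 * 10000 - x.2.1 * 480| ≤ max ((En x.2.1 p : ℕ) : ℝ) ((En x.2.1 q : ℕ) : ℝ) := by
      rw [En_cast, En_cast]
      rw [abs_le]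
      constructor
      · have := neg_abs_le ((p : ℝ) * 10000 - x.2.1 * 480)
        have := le_max_left |(p : ℝ) * 10000 - x.2.1 * 480| |(q : ℝ) * 10000 - x.2.1 * 480|
        linarith
      · have := le_abs_self ((q : ℝ) * 10000 - x.2.1 * 480)
        have := le_max_right |(p : ℝ) * 10000 - x.2.1 * 480| |(q : ℝ) * 10000 - x.2.1 * 480|
        linarith
    have h3 := pow_le_pow_left₀ (abs_nonneg _) h2 2
    rw [sq_abs] at h3
    have e : ((480 * 10000 : ℕ) : ℝ) = 480 * 10000 := by norm_num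
    rw [e]
    calc (κ - (x.2.1 : ℝ) / 10000) ^ 2 * (480 * 10000 : ℝ) ^ 2 =
          (κ * 480 * 10000 - x.2.1 * 480) ^ 2 := by ring
      _ ≤ _ := h3

theorem prod_nr_le {p q : ℕ} (hp : 480 ≤ p) (hpq : p ≤ q) {κ : ℝ} (h0 : (p : ℝ) / 480 ≤ κ)
    (h1 : κ ≤ (q : ℝ) / 480) (r : List (Bool × ℕ × ℕ)) :
    (r.map fun x => nr κ x ^ (2 * x.2.2)).prod ≤ (pn p q r : ℝ) / (pd r : ℝ) := by
  have hd : (0 : ℝ) < (pd r : ℝ) := by exact_mod_cast pd_pos r
  rw [le_div_iff₀ hd]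
  clear hd
  induction r with
  | nil => simp [pn, pd]
  | cons x r ih =>
    have e1 : pn p q (x :: r) = nn p q x ^ (2 * x.2.2) * pn p q r := by
      unfold pn; rw [List.map_cons, List.prod_cons]
    have e2 : pd (x :: r) = dn x ^ (2 * x.2.2) * pd r := by
      unfold pd; rw [List.map_cons, List.prod_cons]
    rw [e1, e2, List.map_cons, List.prod_cons]
    push_cast
    have hr0 : 0 ≤ (r.map fun x => nr κ x ^ (2 * x.2.2)).prod := by
      apply List.prod_nonneg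
      intro a ha
      obtain ⟨y, _, rfl⟩ := List.mem_map.1 ha
      exact pow_nonneg (nr_nonneg κ y) _
    have hx := nr_le hp hpq h0 h1 x
    have hx0 := nr_nonneg κ x
    calc nr κ x ^ (2 * x.2.2) * (r.map fun x => nr κ x ^ (2 * x.2.2)).prod *
          ((dn x : ℝ) ^ (2 * x.2.2) * (pd r : ℝ))
        = (nr κ x * (dn x : ℝ)) ^ (2 * x.2.2) *
          ((r.map fun x => nr κ x ^ (2 * x.2.2)).prod * (pd r : ℝ)) := by
          rw [mul_pow]; ring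
      _ ≤ (nn p q x : ℝ) ^ (2 * x.2.2) * (pn p q r : ℝ) := by
          apply mul_le_mul _ ih (mul_nonneg hr0 (Nat.cast_nonneg _)) (pow_nonneg (Nat.cast_nonneg _) _)
          exact pow_le_pow_left₀ (mul_nonneg hx0 (Nat.cast_nonneg _)) hx _

/-! ### Powers -/

noncomputable def DD (y : ℝ) : ℝ := 1 + y + y⁻¹

theorem powA {y : ℝ} (hy : 1 ≤ y) {e M N R : ℕ} (h : e ≤ M * N + R) :
    y ^ e ≤ (y ^ M) ^ N * DD y ^ R := by
  have hy0 : 0 < y := by linarith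
  have hD : y ≤ DD y := by
    unfold DD
    have := inv_pos.2 hy0
    linarith
  calc y ^ e ≤ y ^ (M * N + R) := pow_le_pow_right₀ hy h
    _ = (y ^ M) ^ N * y ^ R := by rw [pow_add, pow_mul]
    _ ≤ (y ^ M) ^ N * DD y ^ R := by
        refine mul_le_mul_of_nonneg_left ?_ (by positivity)
        exact pow_le_pow_left₀ hy0.le hD R

theorem powB {y : ℝ} (hy0 : 0 < y) (hy : y ≤ 1) {e M N R : ℕ} (h : M * N ≤ e + R) :
    y ^ e ≤ (y ^ M) ^ N * DD y ^ R := by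
  have hD : y⁻¹ ≤ DD y := by
    unfold DD
    linarith
  have hyi : 0 < y⁻¹ := inv_pos.2 hy0
  calc y ^ e = y ^ (e + R) * y⁻¹ ^ R := by
        rw [pow_add, mul_assoc, ← mul_pow, mul_inv_cancel₀ hy0.ne', one_pow, mul_one]
    _ ≤ y ^ (M * N) * y⁻¹ ^ R := by
        refine mul_le_mul_of_nonneg_right ?_ (by positivity)
        exact pow_le_pow_of_le_one hy0.le hy h
    _ = (y ^ M) ^ N * y⁻¹ ^ R := by rw [pow_mul]
    _ ≤ (y ^ M) ^ N * DD y ^ R := by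
        refine mul_le_mul_of_nonneg_left ?_ (by positivity)
        exact pow_le_pow_left₀ hyi.le hD R

theorem powC {y : ℝ} (hy0 : 0 < y) {e M N R : ℕ} (h : e ≤ M * N + R) (h' : M * N ≤ e + R) :
    y ^ e ≤ (y ^ M) ^ N * DD y ^ R := by
  rcases le_total 1 y with hy | hy
  · exact powA hy h
  · exact powB hy0 hy h'

theorem choose_le {x : ℝ} (hx : 0 < x) (m j : ℕ) :
    ((m.choose j : ℕ) : ℝ) ≤ (1 + x) ^ m * x⁻¹ ^ j := by
  rw [inv_pow, ← div_eq_mul_inv, le_div_iff₀ (by positivity)]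
  rcases lt_or_ge m j with h | h
  · rw [Nat.choose_eq_zero_of_lt h]
    simp
    positivity
  · rw [add_comm, add_pow]
    have h1 := Finset.single_le_sum (f := fun i => x ^ i * 1 ^ (m - i) * ((m.choose i : ℕ) : ℝ))
      (s := Finset.range (m + 1)) (fun i _ => by positivity) (Finset.mem_range.2 (by omega : j < m + 1))
    simp only [one_pow, mul_one] at h1 ⊢
    rw [mul_comm]
    exact h1

/-- eighth power of a binomial coefficient -/
theorem choose_le8 {x : ℝ} (hx : 0 < x) {m j N M J R : ℕ} (w : ℕ)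
    (hm : w * m ≤ M * N + R) (hj : (x⁻¹) ^ (w * j) ≤ ((x⁻¹) ^ J) ^ N * DD x⁻¹ ^ R) :
    ((m.choose j : ℕ) : ℝ) ^ w ≤ ((1 + x) ^ M * x⁻¹ ^ J) ^ N * (DD (1 + x) ^ R * DD x⁻¹ ^ R) := by
  have hxi := inv_pos.2 hx
  have p1 : (1 + x) ^ (w * m) ≤ ((1 + x) ^ M) ^ N * DD (1 + x) ^ R := powA (by linarith) hm
  calc ((m.choose j : ℕ) : ℝ) ^ w ≤ ((1 + x) ^ m * x⁻¹ ^ j) ^ w :=
        pow_le_pow_left₀ (by positivity) (choose_le hx m j) w
    _ = (1 + x) ^ (w * m) * x⁻¹ ^ (w * j) := by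
        rw [mul_pow, ← pow_mul, ← pow_mul, mul_comm m w, mul_comm j w]
    _ ≤ (((1 + x) ^ M) ^ N * DD (1 + x) ^ R) * (((x⁻¹) ^ J) ^ N * DD x⁻¹ ^ R) :=
        mul_le_mul p1 hj (by positivity) (le_trans (by positivity) p1)
    _ = _ := by
        rw [mul_pow]
        ring

/-! ### The bound -/

noncomputable def cst (j : ℕ) : ℝ :=
  (DD (1 + xx (q1 j)) ^ RR * DD (xx (q1 j))⁻¹ ^ RR) *
  (DD (1 + xx (q2 j)) ^ RR * DD (xx (q2 j))⁻¹ ^ RR) *
  (DD (1 + xx (q3 j)) ^ RR * DD (xx (q3 j))⁻¹ ^ RR)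

theorem DD_pos {y : ℝ} (hy : 0 ≤ y) : 0 < DD y := by
  unfold DD
  have := inv_nonneg.2 hy
  linarith

theorem xx_nonneg (q : ℕ) : 0 ≤ xx q := by unfold xx; positivity

theorem cst_pos (j : ℕ) : 0 < cst j := by
  have h1 := xx_nonneg (q1 j)
  have h2 := xx_nonneg (q2 j)
  have h3 := xx_nonneg (q3 j)
  have a1 := DD_pos (show 0 ≤ 1 + xx (q1 j) by linarith)
  have a2 := DD_pos (show 0 ≤ 1 + xx (q2 j) by linarith)
  have a3 := DD_pos (show 0 ≤ 1 + xx (q3 j) by linarith)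
  have b1 := DD_pos (inv_nonneg.2 h1)
  have b2 := DD_pos (inv_nonneg.2 h2)
  have b3 := DD_pos (inv_nonneg.2 h3)
  unfold cst
  positivity

theorem combine {W1 W2 W3 U1 U2 U3 V1 V2 V3 T X Y Z m : ℝ} {N : ℕ} (_ : 0 ≤ W1) (_ : 0 ≤ W2)
    (_ : 0 ≤ W3) (u1 : 0 ≤ U1) (u2 : 0 ≤ U2) (u3 : 0 ≤ U3) (v1 : 0 < V1) (v2 : 0 < V2) (v3 : 0 < V3)
    (_ : 0 ≤ T) (hX : 0 ≤ X) (hXY : X ≤ Y) (_ : 0 ≤ m) (c1 : W1 ^ 8 ≤ U1 ^ N * V1)
    (c2 : W2 ^ 8 ≤ U2 ^ N * V2) (c3 : W3 ^ 16 ≤ U3 ^ N * V3) (hU : T ^ 8 * U1 * U2 * U3 * Y ^ 8 ≤ Z ^ 8) :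
    (W1 * W2 * m ^ 2 * W3 ^ 2 * T ^ N * X ^ N) ^ 8 ≤ m ^ 16 * (V1 * V2 * V3) * (Z ^ N) ^ 8 := by
  have hX8 : (X ^ N) ^ 8 ≤ (Y ^ 8) ^ N := by
    rw [← pow_mul, ← pow_mul, mul_comm N 8]
    exact pow_le_pow_left₀ hX hXY _
  have hY0 : 0 ≤ Y := hX.trans hXY
  have f1 : (W1 * W2 * m ^ 2 * W3 ^ 2 * T ^ N * X ^ N) ^ 8 =
      m ^ 16 * (W1 ^ 8 * W2 ^ 8 * W3 ^ 16) * (T ^ 8) ^ N * (X ^ N) ^ 8 := by ring
  rw [f1]
  have g1 : W1 ^ 8 * W2 ^ 8 * W3 ^ 16 ≤ U1 ^ N * V1 * (U2 ^ N * V2) * (U3 ^ N * V3) := by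
    have h12 := mul_le_mul c1 c2 (by positivity) (by positivity)
    exact mul_le_mul h12 c3 (by positivity) (by positivity)
  have hUN := pow_le_pow_left₀ (by positivity) hU N
  calc m ^ 16 * (W1 ^ 8 * W2 ^ 8 * W3 ^ 16) * (T ^ 8) ^ N * (X ^ N) ^ 8
      ≤ m ^ 16 * (U1 ^ N * V1 * (U2 ^ N * V2) * (U3 ^ N * V3)) * (T ^ 8) ^ N *
        (Y ^ 8) ^ N := by gcongr
    _ = m ^ 16 * (V1 * V2 * V3) * (T ^ 8 * U1 * U2 * U3 * Y ^ 8) ^ N := by
        rw [mul_pow, mul_pow, mul_pow, mul_pow]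
        ring
    _ ≤ m ^ 16 * (V1 * V2 * V3) * (Z ^ 8) ^ N := by gcongr
    _ = _ := by
        rw [← pow_mul, ← pow_mul, mul_comm 8 N]

theorem cell_bound (h2 : StR2) {n k b p q : ℕ} (hn : 1 ≤ n)
    (hk : k ∈ Finset.Icc (5 * n + 1) (12 * n)) (hc : chk (tG b) (row b) p q = true)
    (hlo : p * n < 480 * k) (hhi : 480 * k ≤ q * n) :
    (((RK n k : ℚ) : ℝ) * 2 ^ (tG b * (n / 60)) *
      (∏ i ∈ Finset.range nN, nk i ((k : ℝ) / n) ^ (2 * sG b i)) ^ (n / 60)) ^ 8 ≤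
      (8 * (n : ℝ)) ^ 16 * cst (p + q) * (2 ^ ((UU + TO) * (n / 60))) ^ 8 := by
  obtain ⟨hp, hq, hpq, hq1, hq2, hq3, -⟩ := chk_true hc
  have hU := UR_le hc
  have hx1 : 0 < xx (q1 (p + q)) := by
    unfold xx
    have : (0 : ℝ) < (q1 (p + q) : ℝ) := by exact_mod_cast hq1
    positivity
  have hx2 : 0 < xx (q2 (p + q)) := by
    unfold xx
    have : (0 : ℝ) < (q2 (p + q) : ℝ) := by exact_mod_cast hq2
    positivity
  have hx3 : 0 < xx (q3 (p + q)) := by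
    unfold xx
    have : (0 : ℝ) < (q3 (p + q) : ℝ) := by exact_mod_cast hq3
    positivity
  have hk' := Finset.mem_Icc.1 hk
  set N := n / 60 with hN
  obtain ⟨r, hr, hnr⟩ : ∃ r, r < 60 ∧ n = 60 * N + r := ⟨n % 60, Nat.mod_lt _ (by norm_num), by omega⟩
  have hX1 : X1 = 1440 := rfl
  have hX2 : X2 = 2400 := rfl
  have hX3 : X3 = 7680 := rfl
  have hRR : RR = 12000 := rfl
  have hkN : 8 * k ≤ q * N + q := by
    have e1 : 60 * (8 * k) ≤ 60 * (q * N) + q * r := by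
      calc 60 * (8 * k) = 480 * k := by ring
        _ ≤ q * n := hhi
        _ = q * (60 * N + r) := by rw [← hnr]
        _ = 60 * (q * N) + q * r := by ring
    have e2 : q * r ≤ q * 60 := Nat.mul_le_mul_left _ (by omega)
    omega
  have hkN' : p * N ≤ 8 * k := by
    have e1 : 60 * (p * N) ≤ 60 * (8 * k) := by
      calc 60 * (p * N) = p * (60 * N) := by ring
        _ ≤ p * n := Nat.mul_le_mul_left _ (by omega)
        _ ≤ 60 * (8 * k) := by omega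
    omega
  have hqs : q * N = 1920 * N + (q - 1920) * N := by
    rw [← add_mul, Nat.add_sub_cancel' (by omega)]
  have hps : p * N = 1920 * N + (p - 1920) * N := by
    rw [← add_mul, Nat.add_sub_cancel' (by omega)]
  -- the powers
  have c1 : (((k - 1).choose (3 * n) : ℕ) : ℝ) ^ 8 ≤
      ((1 + xx (q1 (p + q))) ^ q * (xx (q1 (p + q)))⁻¹ ^ X1) ^ N *
        (DD (1 + xx (q1 (p + q))) ^ RR * DD (xx (q1 (p + q)))⁻¹ ^ RR) :=
    choose_le8 hx1 8 (by rw [hRR]; omega) (powC (inv_pos.2 hx1) (by rw [hX1, hRR]; omega)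
      (by rw [hX1, hRR]; omega))
  have c2 : (((k - 1).choose (5 * n) : ℕ) : ℝ) ^ 8 ≤
      ((1 + xx (q2 (p + q))) ^ q * (xx (q2 (p + q)))⁻¹ ^ X2) ^ N *
        (DD (1 + xx (q2 (p + q))) ^ RR * DD (xx (q2 (p + q)))⁻¹ ^ RR) :=
    choose_le8 hx2 8 (by rw [hRR]; omega) (powC (inv_pos.2 hx2) (by rw [hX2, hRR]; omega)
      (by rw [hX2, hRR]; omega))
  have r3 : (xx (q3 (p + q)))⁻¹ ^ (16 * (k - 4 * n - 1)) ≤
      ((xx (q3 (p + q)))⁻¹ ^ (2 * Ks p q)) ^ N * DD (xx (q3 (p + q)))⁻¹ ^ RR := by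
    by_cases hqq : q3 (p + q) < 200
    · have hx : xx (q3 (p + q)) ≤ 1 := by
        unfold xx
        have : (q3 (p + q) : ℝ) < 200 := by exact_mod_cast hqq
        rw [div_le_one (by norm_num)]
        exact this.le
      refine powA ((one_le_inv₀ hx3).2 hx) ?_
      have hK : Ks p q = q - 1920 := by unfold Ks; rw [if_pos hqq]
      rw [hK, hRR, mul_assoc]
      omega
    · have hx : 1 ≤ xx (q3 (p + q)) := by
        unfold xx
        have : (200 : ℝ) ≤ q3 (p + q) := by exact_mod_cast (not_lt.1 hqq)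
        rw [one_le_div (by norm_num)]
        exact this
      refine powB (inv_pos.2 hx3) (inv_le_one_of_one_le₀ hx) ?_
      have hK : Ks p q = p - 1920 := by unfold Ks; rw [if_neg hqq]
      rw [hK, hRR, mul_assoc]
      omega
  have c3 : (((8 * n - 1).choose (k - 4 * n - 1) : ℕ) : ℝ) ^ 16 ≤
      ((1 + xx (q3 (p + q))) ^ X3 * (xx (q3 (p + q)))⁻¹ ^ (2 * Ks p q)) ^ N *
        (DD (1 + xx (q3 (p + q))) ^ RR * DD (xx (q3 (p + q)))⁻¹ ^ RR) :=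
    choose_le8 hx3 16 (by rw [hX3, hRR]; omega) r3
  -- the product over the nodes
  have hn0 : (0 : ℝ) < n := by exact_mod_cast hn
  have hP : ∏ i ∈ Finset.range nN, nk i ((k : ℝ) / n) ^ (2 * sG b i) ≤
      (pn p q (row b) : ℝ) / (pd (row b) : ℝ) := by
    rw [prod_nk]
    apply prod_nr_le (by omega) (by omega)
    · rw [div_le_div_iff₀ (by norm_num) hn0]
      have : ((p * n : ℕ) : ℝ) ≤ ((480 * k : ℕ) : ℝ) := by exact_mod_cast hlo.le
      push_cast at this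
      linarith
    · rw [div_le_div_iff₀ hn0 (by norm_num)]
      have : ((480 * k : ℕ) : ℝ) ≤ ((q * n : ℕ) : ℝ) := by exact_mod_cast hhi
      push_cast at this
      linarith
  have hP0 : 0 ≤ ∏ i ∈ Finset.range nN, nk i ((k : ℝ) / n) ^ (2 * sG b i) := by
    rw [prod_nk]
    apply List.prod_nonneg
    intro a ha
    obtain ⟨y, _, rfl⟩ := List.mem_map.1 ha
    exact pow_nonneg (nr_nonneg _ y) _
  -- the residue
  have hRK : ((RK n k : ℚ) : ℝ) = ((k - 1).choose (3 * n) : ℝ) * ((k - 1).choose (5 * n) : ℝ) *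
      (8 * n) ^ 2 * ((8 * n - 1).choose (k - 4 * n - 1) : ℝ) ^ 2 := by
    rw [h2 hn hk]
    push_cast
    ring
  have d1 : 0 < DD (1 + xx (q1 (p + q))) ^ RR * DD (xx (q1 (p + q)))⁻¹ ^ RR :=
    mul_pos (pow_pos (DD_pos (by linarith)) _) (pow_pos (DD_pos (inv_nonneg.2 hx1.le)) _)
  have d2 : 0 < DD (1 + xx (q2 (p + q))) ^ RR * DD (xx (q2 (p + q)))⁻¹ ^ RR :=
    mul_pos (pow_pos (DD_pos (by linarith)) _) (pow_pos (DD_pos (inv_nonneg.2 hx2.le)) _)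
  have d3 : 0 < DD (1 + xx (q3 (p + q))) ^ RR * DD (xx (q3 (p + q)))⁻¹ ^ RR :=
    mul_pos (pow_pos (DD_pos (by linarith)) _) (pow_pos (DD_pos (inv_nonneg.2 hx3.le)) _)
  have u1 : 0 ≤ (1 + xx (q1 (p + q))) ^ q * (xx (q1 (p + q)))⁻¹ ^ X1 :=
    mul_nonneg (pow_nonneg (by linarith) _) (pow_nonneg (inv_nonneg.2 hx1.le) _)
  have u2 : 0 ≤ (1 + xx (q2 (p + q))) ^ q * (xx (q2 (p + q)))⁻¹ ^ X2 :=
    mul_nonneg (pow_nonneg (by linarith) _) (pow_nonneg (inv_nonneg.2 hx2.le) _)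
  have u3 : 0 ≤ (1 + xx (q3 (p + q))) ^ X3 * (xx (q3 (p + q)))⁻¹ ^ (2 * Ks p q) :=
    mul_nonneg (pow_nonneg (by linarith) _) (pow_nonneg (inv_nonneg.2 hx3.le) _)
  have e0 : (2 : ℝ) ^ (tG b * N) = (2 ^ tG b) ^ N := pow_mul _ _ _
  have e1 : (2 : ℝ) ^ (8 * tG b) = (2 ^ tG b) ^ 8 := by rw [mul_comm, pow_mul]
  have e2 : (2 : ℝ) ^ ((UU + TO) * N) = (2 ^ (UU + TO)) ^ N := pow_mul _ _ _
  have e3 : (2 : ℝ) ^ (8 * (UU + TO)) = (2 ^ (UU + TO)) ^ 8 := by rw [mul_comm, pow_mul]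
  unfold UR at hU
  rw [e1, e3] at hU
  rw [hRK, e0, e2]
  unfold cst
  exact combine (Nat.cast_nonneg _) (Nat.cast_nonneg _) (Nat.cast_nonneg _) u1 u2 u3 d1 d2 d3
    (pow_nonneg (by norm_num) _) hP0 hP (by linarith) c1 c2 c3 hU

theorem R3_of (h2 : StR2) (hcert : ∀ b ≤ nB, ∃ l : List ℕ, chkL (tG b) (row b) (2400 :: l) = true ∧
    (2400 :: l).getLast (by simp) = 5760) : StR3 := by
  refine ⟨64 * (1 + ∑ j ∈ Finset.range 11521, cst j), 2, ?_, ?_⟩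
  · have : 0 ≤ ∑ j ∈ Finset.range 11521, cst j :=
      Finset.sum_nonneg fun i _ => (cst_pos i).le
    linarith
  · intro n k b hn hk hb
    have hk' := Finset.mem_Icc.1 hk
    obtain ⟨l, hl, hlast⟩ := hcert b hb
    obtain ⟨p, q, hc, hlo, hhi⟩ := chain_cell (n := n) (k := k) l 2400 hl (by omega)
      (by rw [hlast]; omega)
    obtain ⟨hp, hq, hpq, -⟩ := chk_true hc
    have h := cell_bound h2 hn hk hc hlo hhi
    have hle : cst (p + q) ≤ 1 + ∑ j ∈ Finset.range 11521, cst j := by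
      have := Finset.single_le_sum (f := cst) (s := Finset.range 11521)
        (fun i _ => (cst_pos i).le) (Finset.mem_range.2 (by omega : p + q < 11521))
      linarith
    have hc0 := cst_pos (p + q)
    set S : ℝ := 1 + ∑ j ∈ Finset.range 11521, cst j with hS
    have hS1 : 1 ≤ S := by
      have : 0 ≤ ∑ j ∈ Finset.range 11521, cst j :=
        Finset.sum_nonneg fun i _ => (cst_pos i).le
      linarith
    have hn0 : (0 : ℝ) < n := by exact_mod_cast hn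
    have hS8 : cst (p + q) ≤ S ^ 8 := hle.trans (le_self_pow₀ hS1 (by norm_num))
    have hZ0 : (0 : ℝ) ≤ 2 ^ ((UU + TO) * (n / 60)) := pow_nonneg (by norm_num) _
    clear_value S
    generalize (2 : ℝ) ^ ((UU + TO) * (n / 60)) = Z at h hZ0 ⊢
    refine le_of_pow_le_pow_left₀ (n := 8) (by norm_num) (by positivity) (h.trans ?_)
    have h8 : (8 * (n : ℝ)) ^ 16 * cst (p + q) * Z ^ 8 ≤ (8 * (n : ℝ)) ^ 16 * S ^ 8 * Z ^ 8 :=
      mul_le_mul_of_nonneg_right (mul_le_mul_of_nonneg_left hS8 (by positivity)) (by positivity)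
    refine h8.trans (le_of_eq ?_)
    ring

end Pool.Agent.TH609.E3.W638
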