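import Pool.Agent.TH609.E3.RowsL
import Pool.Agent.TH609.E3.W638.R3

/-!
# The certificate at the poles, part 1 (data checked by the kernel)
-/

set_option autoImplicit false

namespace Pool.Agent.TH609.E3.W638

open Pool.Agent.TH609.E3

def pl0 : List ℕ :=
  [5760]

theorem pc0 : chkL 140 rw0 (2400 :: pl0) = true := by decide +kernel

theorem pcert0 : ∃ l : List ℕ, chkL (tG 0) (row 0) (2400 :: l) = true ∧
    (2400 :: l).getLast (by simp) = 5760 := by
  rw [er0.1, er0.2]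
  exact ⟨pl0, pc0, rfl⟩

def pl3 : List ℕ :=
  [5760]

theorem pc3 : chkL 241 rw3 (2400 :: pl3) = true := by decide +kernel

theorem pcert3 : ∃ l : List ℕ, chkL (tG 3) (row 3) (2400 :: l) = true ∧
    (2400 :: l).getLast (by simp) = 5760 := by
  rw [er3.1, er3.2]
  exact ⟨pl3, pc3, rfl⟩

def pl6 : List ℕ :=
  [5460, 5760]

theorem pc6 : chkL 311 rw6 (2400 :: pl6) = true := by decide +kernel

theorem pcert6 : ∃ l : List ℕ, chkL (tG 6) (row 6) (2400 :: l) = true ∧
    (2400 :: l).getLast (by simp) = 5760 := by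
  rw [er6.1, er6.2]
  exact ⟨pl6, pc6, rfl⟩

def pl9 : List ℕ :=
  [3994, 4521, 4870, 5334, 5760]

theorem pc9 : chkL 354 rw9 (2400 :: pl9) = true := by decide +kernel

theorem pcert9 : ∃ l : List ℕ, chkL (tG 9) (row 9) (2400 :: l) = true ∧
    (2400 :: l).getLast (by simp) = 5760 := by
  rw [er9.1, er9.2]
  exact ⟨pl9, pc9, rfl⟩

def pl12 : List ℕ :=
  [3647, 4041, 4144, 4212, 4269, 4307, 4340, 4375, 4424, 4464, 4492, 4518, 4549, 4593, 4616,
   4632, 4644, 4655, 4666, 4678, 4692, 4715, 4728, 4737, 4744, 4750, 4755, 4760, 4765, 4770,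
   4775, 4780, 4786, 4793, 4802, 4816, 4835, 4846, 4853, 4859, 4863, 4867, 4870, 4873, 4875,
   4877, 4879, 4881, 4883, 4885, 4886, 4887, 4888, 4889, 4890, 4891, 4892, 4893, 4894, 4895,
   4896, 4897, 4898, 4899, 4900, 4901, 4902, 4903, 4904, 4905, 4906, 4907, 4908, 4909, 4910,
   4912, 4914, 4916, 4918, 4920, 4922, 4924, 4927, 4930, 4933, 4937, 4941, 4946, 4952, 4959,
   4968, 4979, 4993, 5012, 5038, 5076, 5136, 5240, 5445, 5760]

theorem pc12 : chkL 274 rw12 (2400 :: pl12) = true := by decide +kernel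

theorem pcert12 : ∃ l : List ℕ, chkL (tG 12) (row 12) (2400 :: l) = true ∧
    (2400 :: l).getLast (by simp) = 5760 := by
  rw [er12.1, er12.2]
  exact ⟨pl12, pc12, rfl⟩

def pl15 : List ℕ :=
  [3458, 3774, 3884, 3932, 3960, 3978, 3991, 4001, 4009, 4016, 4022, 4027, 4032, 4036, 4040,
   4044, 4048, 4051, 4054, 4058, 4062, 4066, 4070, 4074, 4079, 4084, 4090, 4097, 4106, 4118,
   4134, 4159, 4203, 4268, 4297, 4314, 4326, 4336, 4345, 4353, 4361, 4370, 4381, 4397, 4426,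
   4444, 4456, 4465, 4473, 4481, 4489, 4499, 4511, 4529, 4561, 4600, 4619, 4632, 4642, 4650,
   4658, 4666, 4675, 4687, 4708, 4725, 4734, 4740, 4745, 4749, 4752, 4754, 4756, 4758, 4760,
   4762, 4764, 4766, 4768, 4770, 4772, 4774, 4776, 4779, 4782, 4786, 4791, 4798, 4810, 4834,
   4845, 4852, 4857, 4861, 4864, 4867, 4870, 4872, 4874, 4876, 4878, 4880, 4882, 4884, 4886,
   4889, 4892, 4895, 4899, 4904, 4911, 4921, 4937, 4972, 4989, 4999, 5006, 5011, 5015, 5018,
   5021, 5024, 5026, 5028, 5030, 5032, 5034, 5036, 5038, 5040, 5042, 5044, 5046, 5048, 5050,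
   5053, 5056, 5060, 5065, 5071, 5079, 5092, 5117, 5132, 5142, 5149, 5155, 5160, 5164, 5167,
   5170, 5173, 5175, 5177, 5179, 5181, 5183, 5185, 5187, 5189, 5191, 5193, 5195, 5197, 5199,
   5201, 5203, 5205, 5208, 5211, 5214, 5217, 5221, 5225, 5230, 5236, 5243, 5252, 5263, 5278,
   5298, 5327, 5372, 5449, 5598, 5760]

theorem pc15 : chkL 90 rw15 (2400 :: pl15) = true := by decide +kernel

theorem pcert15 : ∃ l : List ℕ, chkL (tG 15) (row 15) (2400 :: l) = true ∧
    (2400 :: l).getLast (by simp) = 5760 := by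
  rw [er15.1, er15.2]
  exact ⟨pl15, pc15, rfl⟩

end Pool.Agent.TH609.E3.W638
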