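import Pool.Agent.TH609.E3.RowsL
import Pool.Agent.TH609.E3.W638.R3

/-!
# The certificate at the poles, part 3 (data checked by the kernel)
-/

set_option autoImplicit false

namespace Pool.Agent.TH609.E3.W638

open Pool.Agent.TH609.E3

def pl2 : List ℕ :=
  [5760]

theorem pc2 : chkL 209 rw2 (2400 :: pl2) = true := by decide +kernel

theorem pcert2 : ∃ l : List ℕ, chkL (tG 2) (row 2) (2400 :: l) = true ∧
    (2400 :: l).getLast (by simp) = 5760 := by
  rw [er2.1, er2.2]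
  exact ⟨pl2, pc2, rfl⟩

def pl5 : List ℕ :=
  [5667, 5760]

theorem pc5 : chkL 290 rw5 (2400 :: pl5) = true := by decide +kernel

theorem pcert5 : ∃ l : List ℕ, chkL (tG 5) (row 5) (2400 :: l) = true ∧
    (2400 :: l).getLast (by simp) = 5760 := by
  rw [er5.1, er5.2]
  exact ⟨pl5, pc5, rfl⟩

def pl8 : List ℕ :=
  [4270, 5009, 5760]

theorem pc8 : chkL 344 rw8 (2400 :: pl8) = true := by decide +kernel

theorem pcert8 : ∃ l : List ℕ, chkL (tG 8) (row 8) (2400 :: l) = true ∧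
    (2400 :: l).getLast (by simp) = 5760 := by
  rw [er8.1, er8.2]
  exact ⟨pl8, pc8, rfl⟩

def pl11 : List ℕ :=
  [3717, 4108, 4199, 4246, 4276, 4298, 4316, 4331, 4345, 4358, 4372, 4389, 4412, 4436, 4450,
   4459, 4466, 4471, 4475, 4479, 4482, 4485, 4488, 4490, 4492, 4494, 4496, 4498, 4500, 4502,
   4504, 4506, 4508, 4511, 4514, 4517, 4521, 4525, 4530, 4537, 4547, 4563, 4583, 4594, 4602,
   4607, 4611, 4615, 4618, 4621, 4623, 4625, 4627, 4629, 4631, 4633, 4635, 4637, 4639, 4641,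
   4643, 4645, 4647, 4650, 4653, 4656, 4660, 4665, 4671, 4679, 4691, 4714, 4728, 4737, 4744,
   4750, 4755, 4759, 4762, 4765, 4768, 4771, 4773, 4775, 4777, 4779, 4781, 4783, 4785, 4787,
   4789, 4791, 4793, 4795, 4797, 4799, 4801, 4804, 4807, 4810, 4813, 4817, 4821, 4826, 4831,
   4837, 4844, 4853, 4864, 4878, 4896, 4920, 4955, 5007, 5093, 5251, 5583, 5760]

theorem pc11 : chkL 320 rw11 (2400 :: pl11) = true := by decide +kernel

theorem pcert11 : ∃ l : List ℕ, chkL (tG 11) (row 11) (2400 :: l) = true ∧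
    (2400 :: l).getLast (by simp) = 5760 := by
  rw [er11.1, er11.2]
  exact ⟨pl11, pc11, rfl⟩

def pl14 : List ℕ :=
  [3507, 3843, 3957, 4014, 4053, 4086, 4118, 4156, 4211, 4274, 4306, 4327, 4345, 4362, 4381,
   4407, 4439, 4458, 4472, 4484, 4496, 4510, 4528, 4556, 4595, 4616, 4631, 4644, 4656, 4669,
   4686, 4716, 4735, 4748, 4759, 4769, 4780, 4793, 4812, 4839, 4854, 4864, 4872, 4879, 4885,
   4891, 4897, 4904, 4912, 4923, 4939, 4970, 4986, 4997, 5005, 5012, 5018, 5023, 5028, 5033,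
   5038, 5043, 5048, 5054, 5061, 5069, 5080, 5095, 5120, 5139, 5158, 5179, 5204, 5237, 5285,
   5362, 5506, 5760]

theorem pc14 : chkL 157 rw14 (2400 :: pl14) = true := by decide +kernel

theorem pcert14 : ∃ l : List ℕ, chkL (tG 14) (row 14) (2400 :: l) = true ∧
    (2400 :: l).getLast (by simp) = 5760 := by
  rw [er14.1, er14.2]
  exact ⟨pl14, pc14, rfl⟩

end Pool.Agent.TH609.E3.W638
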